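import Pool.Agent.BEH.Stmts

/-! Squad BEH, row UPP: low eigenvalues of the domain with holes move by at most `3 ε`. -/

set_option autoImplicit false

namespace Pool.Agent.BEH.H75

open Set Filter Topology MeasureTheory
open scoped InnerProductSpace ENNReal
open Pool.Agent.BE01 Pool.Agent.BEL Pool.Agent.BEH

noncomputable section

/-- the norm of a class in `L^2` -/
theorem lp_norm_sq {E X : Type} [NormedAddCommGroup E] [InnerProductSpace ℝ E]
    [MeasurableSpace X] (μ : Measure X) (f : Lp E 2 μ) : ‖f‖ ^ 2 = ∫ y, ‖f y‖ ^ 2 ∂μ := by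
  rw [← real_inner_self_eq_norm_sq, L2.inner_def]
  simp only [real_inner_self_eq_norm_sq]

variable {d N : ℕ}

theorem bint {Ω : Set (En d)} [IsFiniteMeasure (mu Ω)] {F : En d → ℝ} (hF : Measurable F)
    {K : ℝ} (hK : ∀ y, |F y| ≤ K) : Integrable F (mu Ω) :=
  Integrable.of_bound hF.aestronglyMeasurable K (Eventually.of_forall fun y => by
    rw [Real.norm_eq_abs]
    exact hK y)

theorem small_int (Ω : Set (En d)) [IsFiniteMeasure (mu Ω)] (F : En d → ℝ) (K V : ℝ)
    (S : Set (En d)) (hS : MeasurableSet S) (hfin : volume S ≠ ∞) (hV : volume.real S ≤ V)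
    (hK : 0 ≤ K) (hF : ∀ y, |F y| ≤ K) (hF0 : ∀ y, y ∉ S → F y = 0) :
    |∫ y, F y ∂(mu Ω)| ≤ K * V := by
  have h1 : |∫ y, F y ∂(mu Ω)| ≤ ∫ y, S.indicator (fun _ => K) y ∂(mu Ω) := by
    rw [← Real.norm_eq_abs]
    apply norm_integral_le_of_norm_le
    · exact (integrable_const K).indicator hS
    · refine Eventually.of_forall fun y => ?_
      by_cases hy : y ∈ S
      · rw [indicator_of_mem hy, Real.norm_eq_abs]
        exact hF y
      · rw [indicator_of_notMem hy, hF0 y hy, norm_zero]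
  rw [integral_indicator_const _ hS, smul_eq_mul] at h1
  have h2 : (mu Ω).real S ≤ volume.real S :=
    ENNReal.toReal_mono hfin (Measure.restrict_le_self S)
  calc |∫ y, F y ∂(mu Ω)| ≤ (mu Ω).real S * K := h1
    _ ≤ V * K := mul_le_mul_of_nonneg_right (h2.trans hV) hK
    _ = K * V := mul_comm _ _

theorem lc_meas {B : ℝ} {f : Fin N → En d → ℝ} (hf : ∀ i, Bm B (f i)) (c : Fin N → ℝ) :
    Measurable (lc f c) := by
  show Measurable (fun y => ∑ i, c i * f i y)
  exact Finset.measurable_sum _ (fun i _ => (hf i).1.const_mul _)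

theorem lc_bound {B : ℝ} {f : Fin N → En d → ℝ} (hf : ∀ i, Bm B (f i)) (c : Fin N → ℝ)
    (y : En d) : |lc f c y| ≤ B * ∑ i, |c i| := by
  unfold lc
  refine (Finset.abs_sum_le_sum_abs _ _).trans ?_
  rw [Finset.mul_sum]
  refine Finset.sum_le_sum fun i _ => ?_
  rw [abs_mul, mul_comm B]
  exact mul_le_mul_of_nonneg_left ((hf i).2 y) (abs_nonneg _)

theorem sum_abs_sq (c : Fin N → ℝ) : (∑ i, |c i|) ^ 2 ≤ N * sq c := by
  have h := sq_sum_le_card_mul_sum_sq (s := (Finset.univ : Finset (Fin N))) (f := fun i => |c i|)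
  simp only [sq_abs, Finset.card_univ, Fintype.card_fin] at h
  exact h

theorem cont_grad {η : En d → ℝ} (h : ContDiff ℝ ((⊤ : ℕ∞) : WithTop ℕ∞) η) :
    Continuous (gradient η) := by
  have h1 : Continuous (fderiv ℝ η) := h.continuous_fderiv (by simp)
  exact (InnerProductSpace.toDual ℝ (En d)).symm.continuous.comp h1

/-- the energy of the product of the cut-off functions -/
theorem cut_int {Ω : Set (En d)} {B : ℝ} {f : Fin N → En d → ℝ} (hf : ∀ i, Bm B (f i))
    {x : En d} {R κ γ r : ℝ} {η : En d → ℝ} (hC : Cut f x R κ γ r η) (c : Fin N → ℝ) :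
    Integrable (fun y => lc f c y ^ 2 * ‖gradient η y‖ ^ 2) volume ∧
      ∫ y, lc f c y ^ 2 * ‖gradient η y‖ ^ 2 ∂(mu Ω) ≤ γ * (5 / 2 * lc f c x ^ 2 + κ * sq c) := by
  obtain ⟨R', -, hR'⟩ := hC.one
  have hcont : Continuous (fun y => ‖gradient η y‖ ^ 2) := (cont_grad hC.smooth).norm.pow 2
  have hsupp : HasCompactSupport (fun y => ‖gradient η y‖ ^ 2) := by
    apply HasCompactSupport.of_support_subset_isCompact (isCompact_closedBall x R')
    intro y hy
    rw [Function.mem_support] at hy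
    rw [mem_closedBall_iff_norm]
    by_contra hlt
    apply hy
    have hlt' : R' < ‖y - x‖ := not_le.1 hlt
    have hev : η =ᶠ[𝓝 y] fun _ => (1 : ℝ) := by
      have : {z : En d | R' < ‖z - x‖} ∈ 𝓝 y :=
        (isOpen_lt continuous_const (by fun_prop)).mem_nhds hlt'
      filter_upwards [this] with z hz
      exact hR' z (le_of_lt hz)
    have hg : gradient η y = 0 := by
      have h1 : fderiv ℝ η y = 0 := by
        rw [hev.fderiv_eq]
        exact fderiv_const_apply _
      show (InnerProductSpace.toDual ℝ (En d)).symm (fderiv ℝ η y) = 0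
      rw [h1, map_zero]
    show ‖gradient η y‖ ^ 2 = 0
    rw [hg, norm_zero]
    ring
  have hI : Integrable (fun y => ‖gradient η y‖ ^ 2) volume :=
    hcont.integrable_of_hasCompactSupport hsupp
  have hI2 : Integrable (fun y => lc f c y ^ 2 * ‖gradient η y‖ ^ 2) volume := by
    apply hI.bdd_mul (c := (B * ∑ i, |c i|) ^ 2) ((lc_meas hf c).pow_const 2).aestronglyMeasurable
    refine Eventually.of_forall fun y => ?_
    rw [Real.norm_eq_abs, abs_pow]
    exact pow_le_pow_left₀ (abs_nonneg _) (lc_bound hf c y) 2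
  refine ⟨hI2, ?_⟩
  refine le_trans ?_ (hC.en c)
  exact setIntegral_le_integral hI2 (Eventually.of_forall fun y => by positivity)

theorem lc_sq_H {Ω : Set (En d)} [IsFiniteMeasure (mu Ω)] {B : ℝ} {f : Fin N → En d → ℝ}
    (hf : ∀ i, Bm B (f i)) {H : En d → ℝ} (hHc : Continuous H)
    (hH : ∀ y, 0 ≤ H y ∧ H y ≤ 1) (c : Fin N → ℝ) :
    ∫ y, lc f c y ^ 2 * H y ^ 2 ∂(mu Ω) =
      ∑ i, c i * ∫ y, f i y * lc f c y * H y ^ 2 ∂(mu Ω) := by
  have hHH : ∀ y, |H y ^ 2| ≤ 1 := fun y => by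
    rw [abs_pow, abs_of_nonneg (hH y).1]
    exact pow_le_one₀ (hH y).1 (hH y).2
  have hint : ∀ i, Integrable (fun y => f i y * lc f c y * H y ^ 2) (mu Ω) := fun i =>
    bint (((hf i).1.mul (lc_meas hf c)).mul (hHc.measurable.pow_const 2))
      (K := B * (B * ∑ i, |c i|) * 1) (fun y => by
        have hB : 0 ≤ B := (abs_nonneg _).trans ((hf i).2 y)
        rw [abs_mul, abs_mul]
        exact mul_le_mul (mul_le_mul ((hf i).2 y) (lc_bound hf c y) (abs_nonneg _) hB)
          (hHH y) (abs_nonneg _) (mul_nonneg hB (mul_nonneg hB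
            (Finset.sum_nonneg fun i _ => abs_nonneg _))))
  have h1 : ∀ y, lc f c y ^ 2 * H y ^ 2 = ∑ i, c i * (f i y * lc f c y * H y ^ 2) := by
    intro y
    have h2 : lc f c y ^ 2 * H y ^ 2 = (∑ i, c i * f i y) * (lc f c y * H y ^ 2) := by
      rw [show (∑ i, c i * f i y) = lc f c y from rfl]
      ring
    rw [h2, Finset.sum_mul]
    exact Finset.sum_congr rfl fun i _ => by ring
  simp only [h1]
  rw [integral_finsetSum _ (fun i _ => (hint i).const_mul _)]
  exact Finset.sum_congr rfl fun i _ => integral_const_mul _ _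

theorem coef {Ω : Set (En d)} [IsFiniteMeasure (mu Ω)] {B : ℝ} {f : Fin N → En d → ℝ}
    (hf : ∀ i, Bm B (f i))
    (orth : ∀ i k, ∫ y, f i y * f k y ∂(mu Ω) = if i = k then 1 else 0)
    (c : Fin N → ℝ) (i : Fin N) : ∫ y, f i y * lc f c y ∂(mu Ω) = c i := by
  have h1 : ∀ y, f i y * lc f c y = ∑ k, c k * (f i y * f k y) := by
    intro y
    unfold lc
    rw [Finset.mul_sum]
    exact Finset.sum_congr rfl fun k _ => by ring
  have hint : ∀ k, Integrable (fun y => f i y * f k y) (mu Ω) := fun k =>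
    bint ((hf i).1.mul (hf k).1) (K := B * B) (fun y => by
      have hB : 0 ≤ B := (abs_nonneg _).trans ((hf i).2 y)
      rw [abs_mul]
      exact mul_le_mul ((hf i).2 y) ((hf k).2 y) (abs_nonneg _) hB)
  simp only [h1]
  rw [integral_finsetSum _ (fun k _ => (hint k).const_mul _)]
  simp only [integral_const_mul, orth, mul_ite, mul_one, mul_zero, Finset.sum_ite_eq,
    Finset.mem_univ, if_true]

theorem coef_H {Ω : Set (En d)} [IsFiniteMeasure (mu Ω)] {B V : ℝ} {f : Fin N → En d → ℝ}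
    (hf : ∀ i, Bm B (f i))
    (orth : ∀ i k, ∫ y, f i y * f k y ∂(mu Ω) = if i = k then 1 else 0)
    {H : En d → ℝ} (hHc : Continuous H) (hH : ∀ y, 0 ≤ H y ∧ H y ≤ 1)
    (hfin : volume {y | H y ≠ 1} ≠ ∞) (hV : volume.real {y | H y ≠ 1} ≤ V)
    (c : Fin N → ℝ) (i : Fin N) :
    |c i - ∫ y, f i y * lc f c y * H y ^ 2 ∂(mu Ω)| ≤ B * (B * ∑ i, |c i|) * V := by
  have hB : 0 ≤ B := (abs_nonneg _).trans ((hf i).2 0)
  have hA : 0 ≤ ∑ i, |c i| := Finset.sum_nonneg fun i _ => abs_nonneg _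
  have hb : ∀ y, |f i y * lc f c y| ≤ B * (B * ∑ i, |c i|) := fun y => by
    rw [abs_mul]
    exact mul_le_mul ((hf i).2 y) (lc_bound hf c y) (abs_nonneg _) hB
  have hHH : ∀ y, |H y ^ 2| ≤ 1 := fun y => by
    rw [abs_pow, abs_of_nonneg (hH y).1]
    exact pow_le_one₀ (hH y).1 (hH y).2
  have hI1 : Integrable (fun y => f i y * lc f c y) (mu Ω) :=
    bint ((hf i).1.mul (lc_meas hf c)) hb
  have hI2 : Integrable (fun y => f i y * lc f c y * H y ^ 2) (mu Ω) :=
    bint (((hf i).1.mul (lc_meas hf c)).mul (hHc.measurable.pow_const 2))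
      (K := B * (B * ∑ i, |c i|) * 1) (fun y => by
        rw [abs_mul]
        exact mul_le_mul (hb y) (hHH y) (abs_nonneg _) (by positivity))
  rw [← coef hf orth c i, ← integral_sub hI1 hI2]
  apply small_int Ω _ _ V {y | H y ≠ 1} ((isOpen_ne_fun hHc continuous_const).measurableSet)
    hfin hV (by positivity)
  · intro y
    have h1 : f i y * lc f c y - f i y * lc f c y * H y ^ 2 =
        f i y * lc f c y * (1 - H y ^ 2) := by ring
    have h2 : |1 - H y ^ 2| ≤ 1 := by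
      have h3 := pow_le_one₀ (n := 2) (hH y).1 (hH y).2
      have h4 := sq_nonneg (H y)
      rw [abs_le]
      constructor <;> linarith
    rw [h1, abs_mul]
    calc |f i y * lc f c y| * |1 - H y ^ 2| ≤ B * (B * ∑ i, |c i|) * 1 :=
          mul_le_mul (hb y) h2 (abs_nonneg _) (by positivity)
      _ = B * (B * ∑ i, |c i|) := mul_one _
  · intro y hy
    have h1 : H y = 1 := by
      by_contra h
      exact hy h
    rw [h1]
    ring

/-- the algebra of the two estimates -/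
theorem algebra {c β om : Fin N → ℝ} {Λ B V : ℝ} (hB : 0 ≤ B) (hV : 0 ≤ V)
    (hβ : ∀ i, |c i - β i| ≤ B * (B * ∑ i, |c i|) * V) (hΛ : 0 ≤ Λ)
    (hom : ∀ i, c i ≠ 0 → 0 ≤ om i ^ 2 ∧ om i ^ 2 ≤ Λ) :
    sq c - N * B ^ 2 * V * sq c ≤ ∑ i, c i * β i ∧
      ∑ i, c i * om i ^ 2 * β i - Λ * ∑ i, c i * β i ≤ Λ * (N * B ^ 2 * V * sq c) := by
  have hA : 0 ≤ ∑ i, |c i| := Finset.sum_nonneg fun i _ => abs_nonneg _
  have hAA : (∑ i, |c i|) * (B * (B * ∑ i, |c i|) * V) ≤ N * B ^ 2 * V * sq c := by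
    have h1 := mul_le_mul_of_nonneg_left (sum_abs_sq c) (by positivity : 0 ≤ B ^ 2 * V)
    calc (∑ i, |c i|) * (B * (B * ∑ i, |c i|) * V) = B ^ 2 * V * (∑ i, |c i|) ^ 2 := by ring
      _ ≤ B ^ 2 * V * (N * sq c) := h1
      _ = N * B ^ 2 * V * sq c := by ring
  constructor
  · have h1 : ∑ i, c i * (c i - β i) ≤ (∑ i, |c i|) * (B * (B * ∑ i, |c i|) * V) := by
      rw [Finset.sum_mul]
      refine Finset.sum_le_sum fun i _ => ?_
      refine (le_abs_self _).trans ?_
      rw [abs_mul]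
      exact mul_le_mul_of_nonneg_left (hβ i) (abs_nonneg _)
    have h2 : ∑ i, c i * (c i - β i) = sq c - ∑ i, c i * β i := by
      unfold BEH.sq
      rw [← Finset.sum_sub_distrib]
      exact Finset.sum_congr rfl fun i _ => by ring
    rw [h2] at h1
    linarith
  · rw [Finset.mul_sum, ← Finset.sum_sub_distrib]
    have h1 : ∑ i, (c i * om i ^ 2 * β i - Λ * (c i * β i)) ≤
        ∑ i, |c i| * (Λ * (B * (B * ∑ i, |c i|) * V)) := by
      refine Finset.sum_le_sum fun i _ => ?_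
      by_cases hc : c i = 0
      · rw [hc]
        simp
      · obtain ⟨h2, h3⟩ := hom i hc
        have h4 : c i * om i ^ 2 * β i - Λ * (c i * β i) =
            -((Λ - om i ^ 2) * c i ^ 2) + (Λ - om i ^ 2) * (c i * (c i - β i)) := by ring
        have h5 : 0 ≤ (Λ - om i ^ 2) * c i ^ 2 := mul_nonneg (by linarith) (sq_nonneg _)
        have h6 : c i * (c i - β i) ≤ |c i| * (B * (B * ∑ i, |c i|) * V) := by
          refine (le_abs_self _).trans ?_
          rw [abs_mul]
          exact mul_le_mul_of_nonneg_left (hβ i) (abs_nonneg _)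
        have h7 : (Λ - om i ^ 2) * (c i * (c i - β i)) ≤
            (Λ - om i ^ 2) * (|c i| * (B * (B * ∑ i, |c i|) * V)) :=
          mul_le_mul_of_nonneg_left h6 (by linarith)
        have h8 : (Λ - om i ^ 2) * (|c i| * (B * (B * ∑ i, |c i|) * V)) ≤
            Λ * (|c i| * (B * (B * ∑ i, |c i|) * V)) :=
          mul_le_mul_of_nonneg_right (by linarith) (by positivity)
        rw [h4]
        linarith
    refine h1.trans ?_
    rw [← Finset.sum_mul]
    calc (∑ i, |c i|) * (Λ * (B * (B * ∑ i, |c i|) * V))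
        = Λ * ((∑ i, |c i|) * (B * (B * ∑ i, |c i|) * V)) := by ring
      _ ≤ Λ * (N * B ^ 2 * V * sq c) := mul_le_mul_of_nonneg_left hAA hΛ

/-- extension of a vector by zero -/
def extv (N m : ℕ) : (Fin m → ℝ) →ₗ[ℝ] (Fin N → ℝ) where
  toFun c i := if h : (i : ℕ) < m then c ⟨i, h⟩ else 0
  map_add' a b := by
    funext i
    show (if h : (i : ℕ) < m then (a + b) ⟨i, h⟩ else 0) =
      (if h : (i : ℕ) < m then a ⟨i, h⟩ else 0) + (if h : (i : ℕ) < m then b ⟨i, h⟩ else 0)
    split_ifs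
    · rfl
    · rw [add_zero]
  map_smul' t a := by
    funext i
    show (if h : (i : ℕ) < m then (t • a) ⟨i, h⟩ else 0) =
      t * (if h : (i : ℕ) < m then a ⟨i, h⟩ else 0)
    split_ifs
    · rfl
    · rw [mul_zero]

theorem extv_lt {N m : ℕ} (c : Fin m → ℝ) (i : Fin N) (h : extv N m c i ≠ 0) : (i : ℕ) < m := by
  by_contra hlt
  apply h
  show (if h : (i : ℕ) < m then c ⟨i, h⟩ else 0) = 0
  rw [dif_neg hlt]

theorem sq_pos_of {N m : ℕ} (hm : m ≤ N) (c : Fin m → ℝ) (hc : c ≠ 0) : 0 < sq (extv N m c) := by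
  obtain ⟨i, hi⟩ : ∃ i, c i ≠ 0 := by
    by_contra h
    apply hc
    funext i
    by_contra hne
    exact h ⟨i, hne⟩
  have h1 : extv N m c (Fin.castLE hm i) = c i := by
    show (if h : ((Fin.castLE hm i : Fin N) : ℕ) < m then c ⟨_, h⟩ else 0) = c i
    rw [dif_pos (by simp)]
    rfl
  have h2 : extv N m c (Fin.castLE hm i) ^ 2 ≤ sq (extv N m c) :=
    Finset.single_le_sum (f := fun j => extv N m c j ^ 2) (fun j _ => sq_nonneg _)
      (Finset.mem_univ (Fin.castLE hm i))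
  rw [h1] at h2
  have h3 : 0 < c i ^ 2 := by positivity
  linarith

/-- the combination of the normalized gradients -/
def lcg {Ω : Set (En d)} (e : HilbertBasis ℕ ℝ (VV Ω)) (om : ℕ → ℝ) (N : ℕ) :
    (Fin N → ℝ) →ₗ[ℝ] VV Ω where
  toFun c := ∑ i : Fin N, (c i * om i) • e i
  map_add' a b := by
    rw [← Finset.sum_add_distrib]
    refine Finset.sum_congr rfl fun i _ => ?_
    rw [← add_smul]
    congr 1
    show (a i + b i) * om i = a i * om i + b i * om i
    ring
  map_smul' t a := by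
    rw [RingHom.id_apply, Finset.smul_sum]
    refine Finset.sum_congr rfl fun i _ => ?_
    rw [smul_smul]
    congr 1
    show t * a i * om i = t * (a i * om i)
    ring

theorem upp (mmt : MmtStmt) (prr : PrrStmt) (eni : EniStmt) (pre : PreStmt) : UppStmt := by
  intro d Ω ι b e om N B f J w hok hf hfb
  set Λb : ℝ := om N ^ 2 with hΛb
  set W : ℝ := ∑ j, w j with hW
  refine ⟨1 / (10 * ((1 + |W|) * ((1 + N * B ^ 2) * (1 + Λb)))), by positivity, ?_⟩
  intro x R D κ ε r η ψ g h hκ0 hκ hε0 hε1 hsys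
  obtain ⟨H, hHdef⟩ : ∃ H : En d → ℝ, H = fun y => ∏ j, η j y := ⟨_, rfl⟩
  obtain ⟨hHs, hH01, ⟨C, hC⟩, hHg, hHsupp, hHz, hHne⟩ :=
    pre d Ω N J f x w R D κ ε r η ψ g h hsys H hHdef
  have hsub : Hl Ω x r ⊆ Ω := sdiff_subset
  generalize Hl Ω x r = Ω' at hHsupp hHz hsub ⊢
  intro ι' b' e' om' hok' m hm
  have hHc : Continuous H := hHs.continuous
  haveI hfinΩ : IsFiniteMeasure (mu Ω) := ⟨by
    show (volume.restrict Ω) univ < ∞
    rw [Measure.restrict_apply_univ]
    exact hok.dom.2.1.measure_lt_top⟩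
  have hΩmeas : MeasurableSet Ω := hok.dom.1.measurableSet
  have hB : 0 ≤ B := (abs_nonneg _).trans ((hf ⟨m, hm⟩).2 0)
  have hbd : ∃ C : ℝ, ∀ y, |H y| ≤ C ∧ ‖gradient H y‖ ≤ C :=
    ⟨max 1 C, fun y => ⟨by
      rw [abs_of_nonneg (hH01 y).1]
      exact (hH01 y).2.trans (le_max_left _ _), (hC y).trans (le_max_right _ _)⟩⟩
  obtain ⟨M, hM⟩ := prr d Ω Ω' ι ι' H hok.dom hok'.dom hsub hok.emb hok'.emb hHs hbd hHsupp
  -- orthonormality
  have orth : ∀ i k : Fin N, ∫ y, f i y * f k y ∂(mu Ω) = if i = k then 1 else 0 := by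
    intro i k
    have h1 := orthonormal_iff_ite.1 b.orthonormal (i : ℕ) (k : ℕ)
    rw [L2.inner_def] at h1
    have h2 : ∫ y, f i y * f k y ∂(mu Ω) = ∫ y, ⟪b i y, b k y⟫_ℝ ∂(mu Ω) := by
      apply integral_congr_ae
      filter_upwards [hfb i, hfb k] with y h3 h4
      rw [h3, h4]
      show _ = b k y * b i y
      ring
    rw [h2, h1]
    simp only [Fin.ext_iff]
  -- the holes
  have hwpos : 0 ≤ W := Finset.sum_nonneg fun j _ => (hsys.w_pos j).le
  have hsetfin : ∀ j, {y | η j y ≠ 1} ⊆ Metric.closedBall (x j) R := by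
    intro j y hy
    obtain ⟨R', hR'R, hR'⟩ := (hsys.cut j).one
    rw [mem_closedBall_iff_norm]
    by_contra hlt
    exact hy (hR' y (by linarith [not_le.1 hlt]))
  have hfin1 : ∀ j, volume {y | η j y ≠ 1} ≠ ∞ := fun j =>
    ((measure_mono (hsetfin j)).trans_lt (isCompact_closedBall _ _).measure_lt_top).ne
  have hfinU : volume (⋃ j, {y | η j y ≠ 1}) ≠ ∞ := by
    have h1 := measure_iUnion_fintype_le volume (fun j => {y | η j y ≠ 1})
    exact (h1.trans_lt (ENNReal.sum_lt_top.2 fun j _ => (hfin1 j).lt_top)).ne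
  have hfin : volume {y | H y ≠ 1} ≠ ∞ :=
    ((measure_mono hHne).trans_lt hfinU.lt_top).ne
  have hV : volume.real {y | H y ≠ 1} ≤ κ * ε * W := by
    have h1 : volume.real {y | H y ≠ 1} ≤ volume.real (⋃ j, {y | η j y ≠ 1}) :=
      measureReal_mono hHne hfinU
    have h2 := measureReal_iUnion_fintype_le (μ := (volume : Measure (En d)))
      (fun j => {y | η j y ≠ 1})
    refine h1.trans (h2.trans ?_)
    rw [hW, Finset.mul_sum]
    refine Finset.sum_le_sum fun j _ => ?_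
    have := (hsys.cut j).vol
    linarith
  -- the constants
  set P : ℝ := κ * W with hP
  set Q : ℝ := N * B ^ 2 with hQ
  have hP0 : 0 ≤ P := mul_nonneg hκ0.le hwpos
  have hQ0 : 0 ≤ Q := by positivity
  have hΛb0 : 0 ≤ Λb := by positivity
  have hPQ : P * ((1 + Q) * (1 + Λb)) ≤ 1 / 10 := by
    have h1 : 0 < (1 + |W|) * ((1 + Q) * (1 + Λb)) := by positivity
    have h2 : κ * (10 * ((1 + |W|) * ((1 + Q) * (1 + Λb)))) ≤ 1 := by
      rw [le_div_iff₀ (by positivity)] at hκ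
      exact hκ
    have h3 : W ≤ 1 + |W| := by linarith [le_abs_self W]
    have h4 : κ * (W * ((1 + Q) * (1 + Λb))) ≤ κ * ((1 + |W|) * ((1 + Q) * (1 + Λb))) :=
      mul_le_mul_of_nonneg_left (mul_le_mul_of_nonneg_right h3 (by positivity)) hκ0.le
    rw [hP]
    nlinarith
  have hΛ : om m ^ 2 ≤ Λb := by
    apply pow_le_pow_left₀ (hok.spec.pos m).le
    exact hok.spec.mono hm.le
  -- the main estimate
  have key : ∀ c : Fin N → ℝ, (∀ i : Fin N, c i ≠ 0 → (i : ℕ) < m + 1) →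
      9 / 10 * sq c ≤ ‖ι' (M (lcg e om N c))‖ ^ 2 ∧
      ‖M (lcg e om N c)‖ ^ 2 ≤ (om m ^ 2 + 3 * ε) * ‖ι' (M (lcg e om N c))‖ ^ 2 := by
    intro c hc
    obtain ⟨hu, hE⟩ := eni d Ω ι b e om hok H hHs hbd N c (lcg e om N c) rfl
    obtain ⟨hM1, hM2⟩ := hM (lcg e om N c)
    set G : VV Ω := lcg e om N c with hG
    -- u is the combination of the f
    have hulc : ι G =ᵐ[mu Ω] lc f c := by
      rw [hu]
      have h1 : ∀ s : Finset (Fin N), (∑ i ∈ s, c i • b i : Lp ℝ 2 (mu Ω)) =ᵐ[mu Ω]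
          fun y => ∑ i ∈ s, c i * f i y := by
        intro s
        induction s using Finset.induction_on with
        | empty =>
          simp only [Finset.sum_empty]
          exact Lp.coeFn_zero _ _ _
        | insert a s ha ih =>
          rw [Finset.sum_insert ha]
          filter_upwards [Lp.coeFn_add (c a • b a) (∑ i ∈ s, c i • b i),
            Lp.coeFn_smul (c a) (b a : Lp ℝ 2 (mu Ω)), ih, hfb a] with y h1 h2 h3 h4
          rw [h1, Pi.add_apply, h2, Pi.smul_apply, h3, Finset.sum_insert ha, h4, smul_eq_mul]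
      exact h1 Finset.univ
    set β : Fin N → ℝ := fun i => ∫ y, f i y * lc f c y * H y ^ 2 ∂(mu Ω) with hβ
    -- the norm of ι' (M G)
    have n1 : ‖ι' (M G)‖ ^ 2 = ∑ i, c i * β i := by
      rw [lp_norm_sq, ← lc_sq_H hf hHc hH01 c]
      have h1 : ∫ y, ‖ι' (M G) y‖ ^ 2 ∂(mu Ω') = ∫ y in Ω', (H y * ι G y) ^ 2 := by
        apply integral_congr_ae
        filter_upwards [hM1] with y hy
        rw [hy, Real.norm_eq_abs, sq_abs]
      rw [h1, ← setIntegral_eq_of_subset_of_forall_sdiff_eq_zero hΩmeas hsub (by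
        rintro y ⟨hy, hy'⟩
        rw [(hHz y hy hy').1]
        ring)]
      apply integral_congr_ae
      filter_upwards [hulc] with y hy
      rw [hy]
      ring
    -- the norm of M G
    have n2 : ‖M G‖ ^ 2 = ∑ i, c i * om i ^ 2 * β i +
        ∫ y, lc f c y ^ 2 * ‖gradient H y‖ ^ 2 ∂(mu Ω) := by
      have h0 : ‖M G‖ ^ 2 = ‖((M G : VV Ω') : Lp (En d) 2 (mu Ω'))‖ ^ 2 := rfl
      rw [h0, lp_norm_sq]
      have h1 : ∫ y, ‖((M G : VV Ω') : Lp (En d) 2 (mu Ω')) y‖ ^ 2 ∂(mu Ω') =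
          ∫ y in Ω', ‖H y • (G : Lp (En d) 2 (mu Ω)) y + ι G y • gradient H y‖ ^ 2 := by
        apply integral_congr_ae
        filter_upwards [hM2] with y hy
        rw [hy]
      rw [h1, ← setIntegral_eq_of_subset_of_forall_sdiff_eq_zero hΩmeas hsub (by
        rintro y ⟨hy, hy'⟩
        rw [(hHz y hy hy').1, (hHz y hy hy').2, zero_smul, smul_zero, add_zero, norm_zero]
        ring)]
      refine hE.trans ?_
      congr 1
      · refine Finset.sum_congr rfl fun i _ => ?_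
        congr 1
        apply integral_congr_ae
        filter_upwards [hulc, hfb i] with y hy hy'
        rw [hy, hy']
      · apply integral_congr_ae
        filter_upwards [hulc] with y hy
        rw [hy]
    -- the last integral
    have n3 : ∫ y, lc f c y ^ 2 * ‖gradient H y‖ ^ 2 ∂(mu Ω) ≤
        ε * ((5 / 2 * (101 / 100) + P) * sq c) := by
      have h1 : ∫ y, lc f c y ^ 2 * ‖gradient H y‖ ^ 2 ∂(mu Ω) =
          ∑ j, ∫ y, lc f c y ^ 2 * ‖gradient (η j) y‖ ^ 2 ∂(mu Ω) := by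
        have hI : ∀ j, Integrable (fun y => lc f c y ^ 2 * ‖gradient (η j) y‖ ^ 2) (mu Ω) :=
          fun j => (cut_int (Ω := Ω) hf (hsys.cut j) c).1.restrict
        rw [← integral_finsetSum _ (fun j _ => hI j)]
        apply integral_congr_ae
        refine Eventually.of_forall fun y => ?_
        show lc f c y ^ 2 * ‖gradient H y‖ ^ 2 = ∑ j, lc f c y ^ 2 * ‖gradient (η j) y‖ ^ 2
        rw [hHg y, Finset.mul_sum]
      rw [h1]
      have h2 : ∑ j, ∫ y, lc f c y ^ 2 * ‖gradient (η j) y‖ ^ 2 ∂(mu Ω) ≤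
          ∑ j, ε * w j * (5 / 2 * lc f c (x j) ^ 2 + κ * sq c) :=
        Finset.sum_le_sum fun j _ => (cut_int hf (hsys.cut j) c).2
      have h3 : ∑ j, ε * w j * (5 / 2 * lc f c (x j) ^ 2 + κ * sq c) =
          ε * (5 / 2 * ∑ j, w j * lc f c (x j) ^ 2 + P * sq c) := by
        rw [hP, hW, Finset.mul_sum, Finset.mul_sum, Finset.sum_mul, ← Finset.sum_add_distrib,
          Finset.mul_sum]
        exact Finset.sum_congr rfl fun j _ => by ring
      have h4 := (hsys.quad c).2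
      rw [h3] at h2
      refine h2.trans (mul_le_mul_of_nonneg_left ?_ hε0.le)
      linarith
    -- the estimate of the coefficients
    obtain ⟨a1, a2⟩ := algebra (c := c) (β := β) (om := fun i => om i) (Λ := om m ^ 2) (B := B)
      (V := κ * ε * W) hB (mul_nonneg (mul_nonneg hκ0.le hε0.le) hwpos)
      (fun i => coef_H hf orth hHc hH01 hfin hV c i) (sq_nonneg _) (fun i hi =>
        ⟨sq_nonneg _, pow_le_pow_left₀ (hok.spec.pos _).le
          (hok.spec.mono (Nat.lt_succ_iff.1 (hc i hi))) 2⟩)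
    have hS0 : 0 ≤ sq c := Finset.sum_nonneg fun i _ => sq_nonneg _
    have hΛ0 : 0 ≤ om m ^ 2 := sq_nonneg _
    have e1 : (N : ℝ) * B ^ 2 * (κ * ε * W) * sq c = ε * (Q * P * sq c) := by
      rw [hQ, hP]
      ring
    rw [e1] at a1 a2
    have b1 : Q * P ≤ 1 / 10 := by
      nlinarith [mul_nonneg hP0 hQ0, mul_nonneg hP0 hΛb0,
        mul_nonneg (mul_nonneg hP0 hQ0) hΛb0]
    have b2 : P + om m ^ 2 * (Q * P) ≤ 1 / 10 := by
      have h1 : om m ^ 2 * (Q * P) ≤ Λb * (Q * P) :=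
        mul_le_mul_of_nonneg_right hΛ (mul_nonneg hQ0 hP0)
      nlinarith [mul_nonneg hP0 hQ0, mul_nonneg hP0 hΛb0]
    have c1 : 9 / 10 * sq c ≤ ‖ι' (M G)‖ ^ 2 := by
      rw [n1]
      have h1 : ε * (Q * P * sq c) ≤ 1 * (1 / 10 * sq c) :=
        mul_le_mul hε1.le (mul_le_mul_of_nonneg_right b1 hS0)
          (mul_nonneg (mul_nonneg hQ0 hP0) hS0) zero_le_one
      linarith
    refine ⟨c1, ?_⟩
    rw [n2]
    rw [n1] at c1 ⊢
    have h1 : ε * ((5 / 2 * (101 / 100) + P) * sq c) + om m ^ 2 * (ε * (Q * P * sq c)) ≤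
        ε * (27 / 10 * sq c) := by
      have h2 : (P + om m ^ 2 * (Q * P)) * sq c ≤ 1 / 10 * sq c :=
        mul_le_mul_of_nonneg_right b2 hS0
      have h3 : ε * ((5 / 2 * (101 / 100) + P) * sq c) + om m ^ 2 * (ε * (Q * P * sq c)) =
          ε * (5 / 2 * (101 / 100) * sq c + (P + om m ^ 2 * (Q * P)) * sq c) := by ring
      rw [h3]
      apply mul_le_mul_of_nonneg_left _ hε0.le
      linarith
    have h4 : ε * (27 / 10 * sq c) ≤ 3 * ε * ∑ i, c i * β i := by
      have := mul_le_mul_of_nonneg_left c1 (by positivity : 0 ≤ 3 * ε)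
      linarith
    linarith
  -- conclusion
  apply mmt d Ω' ι' b' e' om' hok'.spec m
    (M.comp ((lcg e om N).comp (extv N (m + 1)))) (om m ^ 2 + 3 * ε)
  · intro c hc h0
    have h1 := (key (extv N (m + 1) c) (fun i hi => extv_lt c i hi)).1
    have h2 := sq_pos_of (N := N) (m := m + 1) hm c hc
    have h3 : ι' (M (lcg e om N (extv N (m + 1) c))) = 0 := h0
    rw [h3, norm_zero] at h1
    linarith
  · intro c
    exact (key (extv N (m + 1) c) (fun i hi => extv_lt c i hi)).2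

end

end Pool.Agent.BEH.H75
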